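import Pool.Agent.Lib.MP_d61ac0_an.Main
import Pool.Agent.Lib.MP_d61ac0_an.Pars
import Pool.Agent.Lib.MP_d61ac0_an.EvP
import Pool.Agent.Lib.MP_d61ac0_an.MemB
import Pool.Agent.Lib.MP_d61ac0_an.WopB
import Pool.Agent.Lib.MP_d61ac0_an.Cnj
import Pool.Agent.Lib.MP_d61ac0_an.IntP
import Pool.Agent.Lib.MP_d61ac0_an.Lbd
import Pool.Agent.Lib.MP_d61ac0_an.Coef
import Pool.Agent.Lib.MP_d61ac0_an.Bdry
import Pool.Agent.Lib.MP_d61ac0_an.Bint
import Pool.Agent.Lib.MP_d61ac0_an.Gram
import Pool.Agent.Lib.MP_d61ac0_an.SymP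
import Pool.Agent.Lib.MP_d61ac0_an.RealP

/-!
# MP_d61ac0_an, Q1: YES

There is a bounded complex symmetric weighted composition operator `W f = ψ · (f ∘ φ)` on the Hardy
space with `ψ ≢ 0` and a nonconstant symbol `φ` that is not linear fractional:
`ψ z = 1 / (1 + √(1 - z))`, `φ z = z / (1 + √(1 - z)) ^ 2`.

`E2` is the Hilbert space `ℓ²` of square summable sequences and `ev a z = ∑ a n * z ^ n`; the first
part `EvIsHardy` of the statement says that `ev` identifies `E2` isometrically with the Hardy space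
of the problem (holomorphic functions on the disk with bounded means `mean f r`).
-/

set_option autoImplicit false

namespace Pool.Agent.Results.MP_d61ac0_an.NotLinearFractional

open Pool.Agent.MPd61

/-- A bounded complex symmetric weighted composition operator `f ↦ ψ · (f ∘ φ)` on `H²` whose
composition symbol `φ` is not constant and not linear fractional. (The first part says that `E2`
with `ev` is `H²`.) -/
theorem result : EvIsHardy ∧ ∃ ψ φ : ℂ → ℂ,
    DifferentiableOn ℂ ψ (Metric.ball 0 1) ∧ DifferentiableOn ℂ φ (Metric.ball 0 1) ∧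
    Set.MapsTo φ (Metric.ball 0 1) (Metric.ball 0 1) ∧
    (∃ z ∈ Metric.ball (0 : ℂ) 1, ψ z ≠ 0) ∧
    (∃ z ∈ Metric.ball (0 : ℂ) 1, ∃ w ∈ Metric.ball (0 : ℂ) 1, φ z ≠ φ w) ∧
    ¬ IsLinFrac φ ∧ IsBddComplexSymm ψ φ :=
  have hP : S_Pars := tPars
  have hE : S_Ev := tEv
  have hM : S_Mem := tMemB hP hE
  have hL : S_Lbd := tLbd
  have h : S_Main :=
    tMain hE hM (tWopB hE hM) tCnj hL (tCoef hL) (tGram hL (tBdry hP) (tBint tInt hL)) tSym tReal
  have ⟨h1, h2, ψ, φ, W, C, a1, a2, a3, a4, a5, a6, a7, a8, a9⟩ := h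
  ⟨⟨h1, h2⟩, ψ, φ, a1, a2, a3, a7, a8, a9, W, C, a4, a5, fun a b => by
    unfold ip
    rw [a6, ContinuousLinearMap.adjoint_inner_left]⟩

end Pool.Agent.Results.MP_d61ac0_an.NotLinearFractional
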